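import Mathlib

/-! Basic tools: the quadratic character data, additive subgroups of a finite field of
characteristic two, the map `x ↦ x ^ 2 + u * x`, and sums of inverses. -/

open Finset

namespace Pool.Agent.MP_f6d20c_nt

variable {F : Type} [Field F] [Fintype F] [CharP F 2]

/-- A sign character invariant under squaring with value `-1` at `1`. -/
structure IsChi (χ : F → ℝ) : Prop where
  add : ∀ x y, χ (x + y) = χ x * χ y
  val : ∀ x, χ x = 1 ∨ χ x = -1
  sq : ∀ x, χ (x ^ 2) = χ x
  one : χ 1 = -1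

open Classical in
/-- The elements of an additive subgroup. -/
noncomputable def els (W : AddSubgroup F) : Finset F := univ.filter (· ∈ W)

omit [CharP F 2] in
@[simp] lemma mem_els {W : AddSubgroup F} {x : F} : x ∈ els W ↔ x ∈ W := by
  simp [els]

/-- The sum of the inverses over the translate `a + W`. -/
noncomputable def S (a : F) (W : AddSubgroup F) : F := ∑ x ∈ els W, (a + x)⁻¹

/-- The additive map `x ↦ x ^ 2 + u * x`. -/
def phi (u : F) : F →+ F where
  toFun x := x ^ 2 + u * x
  map_zero' := by simp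
  map_add' x y := by rw [CharTwo.add_sq]; ring

omit [Fintype F] in
lemma phi_apply (u x : F) : phi u x = x ^ 2 + u * x := rfl

omit [Fintype F] in
lemma phi_eq_mul (u x : F) : phi u x = x * (x + u) := by rw [phi_apply]; ring

omit [Fintype F] in
lemma phi_eq_iff (u x y : F) : phi u x = phi u y ↔ x = y ∨ x = y + u := by
  have h2 : (2 : F) = 0 := CharTwo.two_eq_zero
  constructor
  · intro h
    have : (x - y) * (x - (y + u)) = 0 := by
      rw [phi_apply, phi_apply] at h
      linear_combination h + (y ^ 2 - x * y - u * x + u * y) * h2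
    rcases mul_eq_zero.1 this with h | h
    · left; exact sub_eq_zero.1 h
    · right; exact sub_eq_zero.1 h
  · rintro (rfl | rfl)
    · rfl
    · rw [phi_apply, phi_apply]; linear_combination (y * u + u ^ 2) * h2

/-- Summation over a subgroup containing `u`, fibre by fibre. -/
lemma sum_fibre {M : Type} [AddCommMonoid M] {u : F} (hu : u ≠ 0) {E : AddSubgroup F}
    (huE : u ∈ E) (f G : F → M) (h : ∀ x, f x + f (x + u) = G (phi u x)) :
    ∑ x ∈ els E, f x = ∑ y ∈ els (E.map (phi u)), G y := by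
  classical
  have hmap : ∀ x ∈ els E, phi u x ∈ els (E.map (phi u)) := fun x hx =>
    mem_els.2 ⟨x, mem_els.1 hx, rfl⟩
  rw [← Finset.sum_fiberwise_of_maps_to hmap]
  refine Finset.sum_congr rfl fun y hy => ?_
  obtain ⟨x, hx, rfl⟩ := mem_els.1 hy
  have : (els E).filter (fun z => phi u z = phi u x) = {x, x + u} := by
    ext z
    simp only [mem_filter, mem_els, mem_insert, mem_singleton, phi_eq_iff]
    constructor
    · exact fun h => h.2
    · rintro (rfl | rfl)
      · exact ⟨hx, Or.inl rfl⟩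
      · exact ⟨E.add_mem hx huE, Or.inr rfl⟩
  rw [this, Finset.sum_pair (by simpa using hu), h]

lemma card_fibre {u : F} (hu : u ≠ 0) {E : AddSubgroup F} (huE : u ∈ E) :
    (els E).card = 2 * (els (E.map (phi u))).card := by
  have := sum_fibre hu huE (fun _ => (1 : ℕ)) (fun _ => 2) (fun _ => rfl)
  simpa [mul_comm] using this

open Classical in
omit [Fintype F] in
lemma inv_add_inv (u : F) (hu : u ≠ 0) (x : F) :
    x⁻¹ + (x + u)⁻¹ = u * (phi u x)⁻¹ + if phi u x = 0 then u⁻¹ else 0 := by
  have h2 : (2 : F) = 0 := CharTwo.two_eq_zero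
  rw [phi_eq_mul]
  by_cases hx : x = 0
  · subst hx; simp
  by_cases hxu : x + u = 0
  · have : x = u := by linear_combination hxu - u * h2
    subst this
    simp [hxu]
  · rw [if_neg (mul_ne_zero hx hxu)]
    field_simp
    linear_combination x * h2

open Classical in
lemma S_rec {u : F} (hu : u ≠ 0) {E : AddSubgroup F} (huE : u ∈ E) (a : F) :
    S a E = u * S (phi u a) (E.map (phi u)) + if a ∈ E then u⁻¹ else 0 := by
  unfold S
  rw [sum_fibre hu huE (fun x => (a + x)⁻¹)
    (fun y => u * (phi u a + y)⁻¹ + if phi u a + y = 0 then u⁻¹ else 0)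
    (fun x => by rw [← add_assoc, inv_add_inv u hu, map_add]),
    Finset.sum_add_distrib, Finset.mul_sum]
  congr 1
  have : ∀ y : F, (phi u a + y = 0) ↔ (phi u a = y) := fun y => by
    rw [add_eq_zero_iff_eq_neg, CharTwo.neg_eq]
  simp_rw [this]
  rw [Finset.sum_ite_eq]
  have hiff : phi u a ∈ els (E.map (phi u)) ↔ a ∈ E := by
    rw [mem_els]
    constructor
    · rintro ⟨x, hx, h⟩
      rcases (phi_eq_iff u a x).1 h.symm with rfl | rfl
      · exact hx
      · exact E.add_mem hx huE
    · exact fun h => ⟨a, h, rfl⟩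
  simp only [hiff]

lemma s_rec {u : F} (hu : u ≠ 0) {E : AddSubgroup F} (huE : u ∈ E) :
    S 0 E = u * S 0 (E.map (phi u)) + u⁻¹ := by
  have := S_rec hu huE 0
  rwa [if_pos E.zero_mem, map_zero] at this

omit [CharP F 2] in
lemma exists_ne_zero {E : AddSubgroup F} (h : 1 < (els E).card) : ∃ u ∈ E, u ≠ 0 := by
  classical
  obtain ⟨u, hu, hu0⟩ := Finset.exists_mem_ne h 0
  exact ⟨u, mem_els.1 hu, hu0⟩

omit [CharP F 2] in
lemma els_of_card_one {E : AddSubgroup F} (h : (els E).card = 1) : els E = {0} := by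
  obtain ⟨a, ha⟩ := Finset.card_eq_one.1 h
  have : (0 : F) ∈ els E := mem_els.2 E.zero_mem
  rw [ha, Finset.mem_singleton] at this
  rw [ha, this]

lemma card_map_phi {u : F} (hu : u ≠ 0) {E : AddSubgroup F} (huE : u ∈ E) {i : ℕ}
    (h : (els E).card = 2 ^ (i + 1)) : (els (E.map (phi u))).card = 2 ^ i := by
  have := card_fibre hu huE
  rw [h, pow_succ] at this
  omega

/-- A proper affine translate has a nonzero sum of inverses. -/
lemma S_ne_zero (i : ℕ) : ∀ (E : AddSubgroup F) (a : F), (els E).card = 2 ^ i → a ∉ E →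
    S a E ≠ 0 := by
  induction i with
  | zero =>
    intro E a h ha
    have h0 : a ≠ 0 := fun h0 => ha (h0 ▸ E.zero_mem)
    simp [S, els_of_card_one (by simpa using h), h0]
  | succ i ih =>
    intro E a h ha
    obtain ⟨u, huE, hu⟩ := exists_ne_zero (E := E) (by rw [h]; exact Nat.one_lt_two_pow (by omega))
    rw [S_rec hu huE, if_neg ha, add_zero]
    refine mul_ne_zero hu (ih _ _ (card_map_phi hu huE h) ?_)
    rintro ⟨x, hx, h⟩
    rcases (phi_eq_iff u a x).1 h.symm with rfl | rfl
    · exact ha hx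
    · exact ha (E.add_mem hx huE)

omit [CharP F 2] in
lemma S_of_mem {E : AddSubgroup F} {a : F} (ha : a ∈ E) : S a E = S 0 E := by
  unfold S
  refine Finset.sum_bij' (fun x _ => a + x) (fun x _ => x - a) ?_ ?_ ?_ ?_ ?_
  · intro x hx; exact mem_els.2 (E.add_mem ha (mem_els.1 hx))
  · intro x hx; exact mem_els.2 (E.sub_mem (mem_els.1 hx) ha)
  · intro x _; simp
  · intro x _; simp
  · intro x _; simp

/-- The quotient formula behind the symmetry `k ↔ n - k`. -/
lemma exists_quot (i : ℕ) : ∀ (j : ℕ) (E E' : AddSubgroup F), E ≤ E' → (els E).card = 2 ^ i →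
    (els E').card = 2 ^ (i + j) →
    ∃ (W : AddSubgroup F) (c : F), c ≠ 0 ∧ (els W).card = 2 ^ j ∧ S 0 E' = S 0 E + c * S 0 W := by
  induction i with
  | zero =>
    intro j E E' _ h h'
    refine ⟨E', 1, one_ne_zero, by simpa using h', ?_⟩
    simp [S, els_of_card_one (E := E) (by simpa using h)]
  | succ i ih =>
    intro j E E' hle h h'
    obtain ⟨u, huE, hu⟩ := exists_ne_zero (E := E) (by rw [h]; exact Nat.one_lt_two_pow (by omega))
    obtain ⟨W, c, hc, hW, hS⟩ := ih j (E.map (phi u)) (E'.map (phi u)) (AddSubgroup.map_mono hle)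
      (card_map_phi hu huE h) (card_map_phi hu (hle huE) (by rw [h']; congr 1; omega))
    refine ⟨W, u * c, mul_ne_zero hu hc, hW, ?_⟩
    rw [s_rec hu huE, s_rec hu (hle huE), hS]; ring

omit [CharP F 2] in
lemma els_top : els (⊤ : AddSubgroup F) = univ := by
  ext x; simp

omit [CharP F 2] in
lemma S_top (h : 2 < Fintype.card F) : S 0 (⊤ : AddSubgroup F) = 0 := by
  classical
  obtain ⟨w, hw⟩ : ∃ w : F, w ∉ ({0, 1} : Finset F) := by
    by_contra hcon
    push Not at hcon
    have : (univ : Finset F).card ≤ ({0, 1} : Finset F).card :=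
      Finset.card_le_card fun x _ => hcon x
    have h2 : ({0, 1} : Finset F).card ≤ 2 := Finset.card_le_two
    rw [Finset.card_univ] at this
    omega
  simp only [mem_insert, mem_singleton, not_or] at hw
  have h1 : S 0 (⊤ : AddSubgroup F) = w * S 0 (⊤ : AddSubgroup F) := by
    unfold S
    rw [els_top, Finset.mul_sum]
    refine Fintype.sum_equiv (Equiv.mulLeft₀ w hw.1) _ _ fun x => ?_
    have := hw.1
    simp only [Equiv.mulLeft₀_apply, zero_add, mul_inv]
    rw [← mul_assoc, mul_inv_cancel₀ this, one_mul]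
  have : (w - 1) * S 0 (⊤ : AddSubgroup F) = 0 := by linear_combination -h1
  exact (mul_eq_zero.1 this).resolve_left (sub_ne_zero.2 hw.2)

/-- The symmetry `k ↔ n - k`. -/
lemma exists_dual {n k : ℕ} (hn : Fintype.card F = 2 ^ n) (h2 : 2 ≤ n) (hk : k ≤ n)
    (E : AddSubgroup F) (hE : (els E).card = 2 ^ k) (hS : S 0 E = 0) :
    ∃ W : AddSubgroup F, (els W).card = 2 ^ (n - k) ∧ S 0 W = 0 := by
  obtain ⟨W, c, hc, hW, h⟩ := exists_quot k (n - k) E ⊤ le_top hE
    (by rw [els_top, Finset.card_univ, hn]; congr 1; omega)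
  refine ⟨W, hW, ?_⟩
  have h3 : 2 < Fintype.card F := by
    rw [hn]
    calc 2 < 2 ^ 2 := by norm_num
      _ ≤ 2 ^ n := Nat.pow_le_pow_right (by norm_num) h2
  rw [S_top h3, hS, zero_add] at h
  exact (mul_eq_zero.1 h.symm).resolve_left hc

end Pool.Agent.MP_f6d20c_nt
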