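import Pool.Agent.MP_f6d20c_nt.Basic

/-! The exact recursion for the number of subspaces whose sum of inverses vanishes. -/

open Finset

namespace Pool.Agent.MP_f6d20c_nt

variable {F : Type} [Field F] [Fintype F] [CharP F 2] {χ : F → ℝ}

omit [Fintype F] [CharP F 2] in
lemma IsChi.mul_self (h : IsChi χ) (x : F) : χ x * χ x = 1 := by
  rcases h.val x with h | h <;> rw [h] <;> norm_num

omit [Fintype F] in
lemma IsChi.zero (h : IsChi χ) : χ 0 = 1 := by
  have := h.add 1 1
  rw [CharTwo.add_self_eq_zero, h.one] at this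
  rw [this]; norm_num

open Classical in
omit [CharP F 2] in
lemma IsChi.sum_els (h : IsChi χ) (W : AddSubgroup F) (w : F) :
    ∑ u ∈ els W, χ (u * w) = if ∀ u ∈ W, χ (u * w) = 1 then ((els W).card : ℝ) else 0 := by
  split_ifs with hw
  · rw [Finset.sum_congr rfl fun u hu => hw u (mem_els.1 hu)]; simp
  · push Not at hw
    obtain ⟨a, ha, ha1⟩ := hw
    have ha2 : χ (a * w) = -1 := (h.val _).resolve_left ha1
    have : ∑ u ∈ els W, χ (u * w) = ∑ u ∈ els W, χ ((a + u) * w) := by
      refine Finset.sum_bij' (fun x _ => x - a) (fun x _ => a + x) ?_ ?_ ?_ ?_ ?_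
      · intro x hx; exact mem_els.2 (W.sub_mem (mem_els.1 hx) ha)
      · intro x hx; exact mem_els.2 (W.add_mem ha (mem_els.1 hx))
      · intro x _; simp
      · intro x _; simp
      · intro x _; simp
    simp_rw [add_mul, h.add, ha2, ← Finset.mul_sum] at this
    linarith

open Classical in
lemma IsChi.sum_univ (h : IsChi χ) (w : F) :
    ∑ u, χ (u * w) = if w = 0 then (Fintype.card F : ℝ) else 0 := by
  have := h.sum_els ⊤ w
  rw [els_top] at this
  rw [this]
  by_cases hw : w = 0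
  · subst hw; simp [h.zero]
  · rw [if_neg hw, if_neg]
    intro hc
    have := hc w⁻¹ (AddSubgroup.mem_top _)
    rw [inv_mul_cancel₀ hw, h.one] at this
    norm_num at this

open Classical in
/-- The annihilator of a subgroup. -/
noncomputable def perp (χ : F → ℝ) (W : AddSubgroup F) : Finset F :=
  univ.filter fun w => ∀ u ∈ W, χ (u * w) = 1

omit [CharP F 2] in
lemma mem_perp {W : AddSubgroup F} {w : F} : w ∈ perp χ W ↔ ∀ u ∈ W, χ (u * w) = 1 := by
  simp [perp]

lemma IsChi.zero_mem_perp (h : IsChi χ) (W : AddSubgroup F) : (0 : F) ∈ perp χ W :=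
  mem_perp.2 fun u _ => by rw [mul_zero, h.zero]

open Classical in
omit [CharP F 2] in
lemma IsChi.sum_perp (h : IsChi χ) (W : AddSubgroup F) (f : F → ℝ) :
    ((els W).card : ℝ) * ∑ w ∈ (perp χ W).erase 0, f w =
      ∑ u ∈ els W, ∑ w ∈ univ.erase 0, f w * χ (u * w) := by
  rw [Finset.sum_comm]
  simp_rw [← Finset.mul_sum, h.sum_els]
  have : (perp χ W).erase 0 = (univ.erase 0).filter fun w => ∀ u ∈ W, χ (u * w) = 1 := by
    ext w; simp [mem_perp]
  rw [this, Finset.sum_filter, Finset.mul_sum]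
  refine Finset.sum_congr rfl fun w _ => ?_
  split_ifs <;> ring

lemma IsChi.card_perp (h : IsChi χ) (W : AddSubgroup F) :
    ((els W).card : ℝ) * (perp χ W).card = Fintype.card F := by
  classical
  have h1 : ∑ w, ∑ u ∈ els W, χ (u * w) = ((els W).card : ℝ) * (perp χ W).card := by
    simp_rw [h.sum_els]
    rw [← Finset.sum_filter]
    simp only [Finset.sum_const, nsmul_eq_mul]
    rw [mul_comm]; rfl
  rw [← h1, Finset.sum_comm]
  have h2 : ∀ u : F, ∑ w, χ (u * w) = if u = 0 then (Fintype.card F : ℝ) else 0 := fun u => by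
    rw [← h.sum_univ u]
    exact Finset.sum_congr rfl fun w _ => by rw [mul_comm]
  simp_rw [h2]
  rw [Finset.sum_ite_eq']
  simp

omit [Fintype F] in
lemma IsChi.chi_phi (h : IsChi χ) {u : F} (hu : u ≠ 0) (x : F) :
    χ (phi u x * (u⁻¹) ^ 2) = 1 := by
  have : phi u x * (u⁻¹) ^ 2 = (x * u⁻¹) ^ 2 + x * u⁻¹ := by
    rw [phi_apply]; field_simp
  rw [this, h.add, h.sq, h.mul_self]

lemma IsChi.exists_phi (h : IsChi χ) {u : F} (hu : u ≠ 0) {y : F}
    (hy : χ (y * (u⁻¹) ^ 2) = 1) : ∃ x, phi u x = y := by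
  classical
  set R := els ((⊤ : AddSubgroup F).map (phi u)) with hR
  set P := (univ : Finset F).filter fun y => χ (y * (u⁻¹) ^ 2) = 1 with hP
  have hRP : R ⊆ P := by
    intro z hz
    obtain ⟨x, -, rfl⟩ := mem_els.1 hz
    exact Finset.mem_filter.2 ⟨Finset.mem_univ _, h.chi_phi hu x⟩
  have hRc : Fintype.card F = 2 * R.card := by
    have := card_fibre hu (AddSubgroup.mem_top u)
    rwa [els_top, Finset.card_univ] at this
  have hPc : (Fintype.card F : ℝ) = 2 * P.card := by
    have h0 := h.sum_univ ((u⁻¹) ^ 2)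
    rw [if_neg (pow_ne_zero 2 (inv_ne_zero hu))] at h0
    have h1 : ∑ y : F, (1 + χ (y * (u⁻¹) ^ 2)) =
        ∑ y : F, if χ (y * (u⁻¹) ^ 2) = 1 then (2 : ℝ) else 0 := by
      refine Finset.sum_congr rfl fun y _ => ?_
      rcases h.val (y * (u⁻¹) ^ 2) with h | h <;> rw [h] <;> norm_num
    rw [Finset.sum_add_distrib, h0, ← Finset.sum_filter] at h1
    rw [← hP] at h1
    simpa [mul_comm] using h1
  have hc : P.card ≤ R.card := by
    have : ((2 * R.card : ℕ) : ℝ) = 2 * P.card := by rw [← hRc, hPc]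
    have : 2 * R.card = 2 * P.card := by exact_mod_cast this
    omega
  have := Finset.eq_of_subset_of_card_le hRP hc
  have hyR : y ∈ R := this ▸ Finset.mem_filter.2 ⟨Finset.mem_univ _, hy⟩
  obtain ⟨x, -, hx⟩ := mem_els.1 hyR
  exact ⟨x, hx⟩

variable (F) in
/-- The additive subgroups with `2 ^ i` elements. -/
noncomputable def Gr (i : ℕ) : Finset (AddSubgroup F) :=
  (Set.toFinite {E : AddSubgroup F | (els E).card = 2 ^ i}).toFinset

omit [CharP F 2] in
lemma mem_Gr {i : ℕ} {E : AddSubgroup F} : E ∈ Gr F i ↔ (els E).card = 2 ^ i := by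
  simp [Gr]

open Classical in
/-- Sum over pointed subgroups. -/
noncomputable def B (i : ℕ) (h : F → ℝ) : ℝ :=
  ∑ E ∈ Gr F i, ∑ u ∈ (els E).erase 0, h (u * S 0 E)

open Classical in
/-- Sum over subgroups with a nonzero element of the annihilator. -/
noncomputable def A (χ : F → ℝ) (i : ℕ) (g : F → ℝ) : ℝ :=
  ∑ W ∈ Gr F i, ∑ w ∈ (perp χ W).erase 0, g (S 0 W * w⁻¹)

omit [CharP F 2] in
lemma B_zero (h : F → ℝ) : B 0 h = 0 := by
  classical
  refine Finset.sum_eq_zero fun E hE => ?_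
  rw [els_of_card_one (by simpa using mem_Gr.1 hE)]
  simp

lemma IsChi.B_eq_A (hχ : IsChi χ) (i : ℕ) (h : F → ℝ) :
    B (i + 1) h = A χ i fun x => h (1 + x) := by
  classical
  have hB : B (i + 1) h =
      ∑ u ∈ univ.erase (0 : F), ∑ E ∈ (Gr F (i + 1)).filter (u ∈ ·), h (u * S 0 E) := by
    unfold B
    refine Finset.sum_comm' fun E u => ?_
    simp only [mem_erase, mem_els, mem_filter, mem_univ]
    tauto
  have hA : A χ i (fun x => h (1 + x)) =
      ∑ w ∈ univ.erase (0 : F), ∑ W ∈ (Gr F i).filter (w ∈ perp χ ·), h (1 + S 0 W * w⁻¹) := by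
    unfold A
    refine Finset.sum_comm' fun E u => ?_
    simp only [mem_erase, mem_filter, mem_univ]
    tauto
  rw [hB, hA]
  have hinj : Function.Injective fun u : F => (u⁻¹) ^ 2 := by
    intro a b hab
    have h2 : (2 : F) = 0 := CharTwo.two_eq_zero
    have : (a⁻¹ - b⁻¹) ^ 2 = 0 := by
      simp only at hab
      linear_combination hab + (b⁻¹ ^ 2 - a⁻¹ * b⁻¹) * h2
    exact inv_injective (sub_eq_zero.1 (pow_eq_zero_iff (by norm_num) |>.1 this))
  refine Finset.sum_bijective (fun u : F => (u⁻¹) ^ 2) (Finite.injective_iff_bijective.1 hinj)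
    (fun u => by simp) fun u hu => ?_
  have hu0 : u ≠ 0 := (Finset.mem_erase.1 hu).1
  have hcm : ∀ W : AddSubgroup F, (u⁻¹) ^ 2 ∈ perp χ W → (W.comap (phi u)).map (phi u) = W := by
    intro W hW
    ext y
    constructor
    · rintro ⟨x, hx, rfl⟩; exact hx
    · intro hy
      obtain ⟨x, rfl⟩ := hχ.exists_phi hu0 (mem_perp.1 hW y hy)
      exact ⟨x, hy, rfl⟩
  have hmem : ∀ W : AddSubgroup F, u ∈ W.comap (phi u) := fun W => by
    rw [AddSubgroup.mem_comap, phi_eq_mul, CharTwo.add_self_eq_zero, mul_zero]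
    exact W.zero_mem
  refine Finset.sum_bij' (fun E _ => E.map (phi u)) (fun W _ => W.comap (phi u)) ?_ ?_ ?_ ?_ ?_
  · intro E hE
    obtain ⟨hE, huE⟩ := Finset.mem_filter.1 hE
    refine Finset.mem_filter.2 ⟨mem_Gr.2 (card_map_phi hu0 huE (mem_Gr.1 hE)), mem_perp.2 ?_⟩
    rintro _ ⟨x, -, rfl⟩
    exact hχ.chi_phi hu0 x
  · intro W hW
    obtain ⟨hW, hw⟩ := Finset.mem_filter.1 hW
    refine Finset.mem_filter.2 ⟨mem_Gr.2 ?_, hmem W⟩
    rw [card_fibre hu0 (hmem W), hcm W hw, mem_Gr.1 hW, pow_succ, mul_comm]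
  · intro E hE
    obtain ⟨hE, huE⟩ := Finset.mem_filter.1 hE
    ext x
    constructor
    · rintro ⟨e, he, h⟩
      rcases (phi_eq_iff u x e).1 h.symm with rfl | rfl
      · exact he
      · exact E.add_mem he huE
    · exact fun hx => ⟨x, hx, rfl⟩
  · intro W hW
    exact hcm W (Finset.mem_filter.1 hW).2
  · intro E hE
    obtain ⟨hE, huE⟩ := Finset.mem_filter.1 hE
    congr 1
    rw [s_rec hu0 huE]
    field_simp
    ring

open Classical in
/-- The transform `h ↦ (t ↦ ∑_{y ≠ 0} h (1 + 1 / y) χ (t y))`. -/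
noncomputable def T (χ : F → ℝ) (h : F → ℝ) (t : F) : ℝ :=
  ∑ y ∈ univ.erase 0, h (1 + y⁻¹) * χ (t * y)

open Classical in
variable (F) in
/-- The number of subgroups with `2 ^ i` elements whose sum of inverses vanishes. -/
noncomputable def Z (i : ℕ) : ℝ := (((Gr F i).filter fun E => S 0 E = 0).card : ℝ)

variable (F) in
/-- The number of subgroups with `2 ^ i` elements. -/
noncomputable def G (i : ℕ) : ℝ := ((Gr F i).card : ℝ)

lemma IsChi.step (hχ : IsChi χ) (i : ℕ) (h : F → ℝ) :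
    2 ^ i * B (i + 1) h = G F i * T χ h 0 + B i (T χ h) +
      Z F i * ((Fintype.card F - 2 ^ i) * h 1 - 2 ^ i * T χ h 0) := by
  classical
  rw [hχ.B_eq_A]
  unfold A B G Z
  rw [Finset.mul_sum, Finset.card_eq_sum_ones (Gr F i), Finset.card_filter]
  push_cast
  rw [Finset.sum_mul, Finset.sum_mul, ← Finset.sum_add_distrib, ← Finset.sum_add_distrib]
  refine Finset.sum_congr rfl fun W hW => ?_
  have hc : ((els W).card : ℝ) = 2 ^ i := by rw [mem_Gr.1 hW]; push_cast; rfl
  have h0 : (0 : F) ∈ els W := mem_els.2 W.zero_mem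
  have hsplit : T χ h 0 + ∑ u ∈ (els W).erase 0, T χ h (u * S 0 W) =
      ∑ u ∈ els W, T χ h (u * S 0 W) := by
    rw [← Finset.add_sum_erase _ _ h0, zero_mul]
  rw [one_mul, hsplit]
  by_cases hS : S 0 W = 0
  · simp only [hS, zero_mul, add_zero, mul_zero, Finset.sum_const, nsmul_eq_mul, if_true, hc]
    rw [Finset.card_erase_of_mem (hχ.zero_mem_perp W), Nat.cast_sub
      (Finset.card_pos.2 ⟨0, hχ.zero_mem_perp W⟩), ← hχ.card_perp W, hc]
    push_cast
    ring
  · rw [if_neg hS, zero_mul, add_zero, ← hc, hχ.sum_perp]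
    refine Finset.sum_congr rfl fun u _ => ?_
    unfold T
    symm
    refine Finset.sum_bijective (fun y => S 0 W * y) (Equiv.mulLeft₀ _ hS).bijective
      (fun y => by simp [hS]) fun y hy => ?_
    have hy0 : y ≠ 0 := (Finset.mem_erase.1 hy).1
    congr 2
    · field_simp
    · ring

omit [CharP F 2] in
lemma B_one (i : ℕ) : B i (fun _ : F => (1 : ℝ)) = (2 ^ i - 1) * G F i := by
  classical
  unfold B G
  rw [Finset.card_eq_sum_ones (Gr F i)]
  push_cast
  rw [Finset.mul_sum]
  refine Finset.sum_congr rfl fun W hW => ?_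
  have h0 : (0 : F) ∈ els W := mem_els.2 W.zero_mem
  rw [Finset.sum_const, Finset.card_erase_of_mem h0, mem_Gr.1 hW, nsmul_eq_mul,
    Nat.cast_sub Nat.one_le_two_pow]
  push_cast
  ring

lemma IsChi.G_rec (hχ : IsChi χ) (i : ℕ) :
    2 ^ i * ((2 ^ (i + 1) - 1) * G F (i + 1)) = (Fintype.card F - 2 ^ i) * G F i := by
  classical
  rw [← B_one, hχ.B_eq_A]
  unfold A G
  rw [Finset.card_eq_sum_ones (Gr F i)]
  push_cast
  rw [Finset.mul_sum, Finset.mul_sum]
  refine Finset.sum_congr rfl fun W hW => ?_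
  have hc : ((els W).card : ℝ) = 2 ^ i := by rw [mem_Gr.1 hW]; push_cast; rfl
  rw [Finset.sum_const, nsmul_eq_mul, Finset.card_erase_of_mem (hχ.zero_mem_perp W), Nat.cast_sub
      (Finset.card_pos.2 ⟨0, hχ.zero_mem_perp W⟩), ← hχ.card_perp W, hc]
  push_cast
  ring

open Classical in
/-- The indicator of zero. -/
noncomputable def del (x : F) : ℝ := if x = 0 then 1 else 0

omit [CharP F 2] in
lemma B_del (i : ℕ) : B i (del : F → ℝ) = (2 ^ i - 1) * Z F i := by
  classical
  unfold B Z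
  rw [Finset.card_filter]
  push_cast
  rw [Finset.mul_sum]
  refine Finset.sum_congr rfl fun W hW => ?_
  have h0 : (0 : F) ∈ els W := mem_els.2 W.zero_mem
  by_cases hS : S 0 W = 0
  · simp only [hS, mul_zero, del, if_true]
    rw [Finset.sum_const, Finset.card_erase_of_mem h0, mem_Gr.1 hW, nsmul_eq_mul,
      Nat.cast_sub Nat.one_le_two_pow]
    push_cast
    ring
  · rw [if_neg hS, mul_zero]
    refine Finset.sum_eq_zero fun u hu => ?_
    simp [del, hS, (Finset.mem_erase.1 hu).1]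

omit [CharP F 2] in
lemma Gr_zero : Gr F 0 = {⊥} := by
  ext E
  rw [mem_Gr, Finset.mem_singleton, pow_zero]
  constructor
  · intro h
    have := els_of_card_one h
    ext x
    rw [← mem_els, this]
    simp
  · rintro rfl
    rw [Finset.card_eq_one]
    exact ⟨0, by ext x; simp⟩

omit [CharP F 2] in
lemma G_zero : G F 0 = 1 := by simp [G, Gr_zero]

omit [CharP F 2] in
lemma Z_zero : Z F 0 = 1 := by
  classical
  have : S 0 (⊥ : AddSubgroup F) = 0 := by
    have h : els (⊥ : AddSubgroup F) = {0} := by ext x; simp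
    simp [S, h]
  simp [Z, Gr_zero, Finset.filter_singleton, this]

end Pool.Agent.MP_f6d20c_nt
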